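import Mathlib

set_option autoImplicit false

/-!
# Rich intervals `(x, x + √x)`, real `x`: the count of the exceptions
-/

namespace Pool.Agent.Zk24.PR

open Finset

/-- the number of primes `p` with `a < p < b` -/
noncomputable def np (a b : ℝ) : ℕ := {p : ℕ | p.Prime ∧ a < p ∧ (p : ℝ) < b}.ncard

/-- every interval of length at least `x ^ (1/2 - δ)` inside `(x, x + √x)` contains many primes -/
def Rich (c δ x : ℝ) : Prop :=
  ∀ a b : ℝ, x ≤ a → b ≤ x + √x → x ^ (1 / 2 - δ) ≤ b - a → c * (b - a) / Real.log x ≤ np a b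

/-- the number of primes in `(⌊y⌋, ⌊y + h⌋]` -/
noncomputable def pc (y h : ℝ) : ℕ := ((Ioc ⌊y⌋₊ ⌊y + h⌋₊).filter Nat.Prime).card

lemma finite_np (a b : ℝ) : {p : ℕ | p.Prime ∧ a < p ∧ (p : ℝ) < b}.Finite := by
  obtain ⟨n, hn⟩ := exists_nat_ge b
  refine (Set.finite_Iio n).subset ?_
  rintro p ⟨-, -, h⟩
  exact_mod_cast h.trans_le hn

lemma pieces {a : ℝ} (ha : 0 ≤ a) (m : ℕ) {h : ℝ} (hh : 0 ≤ h) :
    (∑ i ∈ range m, pc (a + i * h) h : ℕ) = ((Ioc ⌊a⌋₊ ⌊a + m * h⌋₊).filter Nat.Prime).card := by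
  induction m with
  | zero => simp
  | succ m ih =>
    rw [sum_range_succ, ih, pc]
    have e : a + m * h + h = a + ((m + 1 : ℕ) : ℝ) * h := by push_cast; ring
    rw [e, ← card_union_of_disjoint]
    · congr 1
      rw [← filter_union]
      congr 1
      apply Ioc_union_Ioc_eq_Ioc
      · apply Nat.floor_le_floor
        have : 0 ≤ (m : ℝ) * h := by positivity
        linarith
      · apply Nat.floor_le_floor
        push_cast
        nlinarith
    · apply disjoint_filter_filter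
      rw [disjoint_left]
      intro x hx hx'
      rw [mem_Ioc] at hx hx'
      omega

/-- an interval with few primes contains a short interval with few primes -/
lemma poor {a b h t : ℝ} (ha : 0 ≤ a) (hh : 0 < h) (hab : 4 * h ≤ b - a) (ht : 0 ≤ t)
    (hpoor : (np a b : ℝ) < t * (b - a) / (2 * h)) :
    ∃ y : ℝ, a ≤ y ∧ y + h ≤ b ∧ (pc y h : ℝ) < t := by
  by_contra hcon
  push Not at hcon
  set m := ⌊(b - a) / h⌋₊ - 1 with hm
  have hX0 : (0 : ℝ) ≤ b - a := by linarith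
  have hfl : (4 : ℝ) ≤ (b - a) / h := by rw [le_div_iff₀ hh]; linarith
  have hfl4 : 4 ≤ ⌊(b - a) / h⌋₊ := Nat.le_floor (by exact_mod_cast hfl)
  have hm1 : ((m : ℝ) + 1) ≤ (b - a) / h := by
    have h1 : ((⌊(b - a) / h⌋₊ : ℕ) : ℝ) ≤ (b - a) / h := Nat.floor_le (by positivity)
    have h2 : ((m + 1 : ℕ) : ℝ) = ((⌊(b - a) / h⌋₊ : ℕ) : ℝ) := by
      rw [hm]; congr 1; omega
    push_cast at h2
    linarith
  have hm1' : ((m : ℝ) + 1) * h ≤ b - a := by rwa [le_div_iff₀ hh] at hm1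
  have hm2 : (b - a) / h < m + 2 := by
    have h1 := Nat.lt_floor_add_one ((b - a) / h)
    have h2 : ((m + 1 : ℕ) : ℝ) = ((⌊(b - a) / h⌋₊ : ℕ) : ℝ) := by
      rw [hm]; congr 1; omega
    push_cast at h2
    linarith
  have h1 : (m : ℝ) * t ≤ ((∑ i ∈ range m, pc (a + i * h) h : ℕ) : ℝ) := by
    push_cast
    calc (m : ℝ) * t = ∑ i ∈ range m, t := by simp
      _ ≤ _ := by
        apply sum_le_sum
        intro i hi
        rw [mem_range] at hi
        have hi' : (i : ℝ) + 1 ≤ m := by exact_mod_cast hi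
        apply hcon
        · have : 0 ≤ (i : ℝ) * h := by positivity
          linarith
        · nlinarith
  rw [pieces ha m hh.le] at h1
  have h2 : ((Ioc ⌊a⌋₊ ⌊a + m * h⌋₊).filter Nat.Prime).card ≤ np a b := by
    unfold np
    rw [← Set.ncard_coe_finset]
    apply Set.ncard_le_ncard _ (finite_np a b)
    intro p hp
    rw [mem_coe, mem_filter, mem_Ioc] at hp
    refine ⟨hp.2, (Nat.floor_lt ha).1 hp.1.1, ?_⟩
    have h3 : (p : ℝ) ≤ a + m * h := (Nat.le_floor_iff (by positivity)).1 hp.1.2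
    have h4 : (m : ℝ) * h + h ≤ b - a := by linarith
    linarith
  have h3 : (((Ioc ⌊a⌋₊ ⌊a + m * h⌋₊).filter Nat.Prime).card : ℝ) ≤ np a b := by exact_mod_cast h2
  have h4 : t * (b - a) / (2 * h) ≤ m * t := by
    rw [show t * (b - a) / (2 * h) = t * ((b - a) / h / 2) by field_simp]
    have : (b - a) / h / 2 ≤ m := by linarith
    nlinarith
  linarith

/-- the form of the theorem on poor intervals -/
def MP (lam0 e0 : ℝ) : Prop := ∃ c η Y₀ : ℝ, 0 < c ∧ 0 < η ∧ ∀ Y : ℝ, Y₀ ≤ Y → ∀ h : ℝ,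
  Real.exp ((1 - lam0 - η) * Y) ≤ h → h ≤ Real.exp (0.9 * Y) → ∀ U : Finset ℝ,
  (∀ y ∈ U, 0 < y ∧ |Real.log y - Y| ≤ 2 / 5 ∧ (pc y h : ℝ) < c * h / Y) →
  (∀ y ∈ U, ∀ y' ∈ U, y ≠ y' → h ≤ |y - y'|) → (U.card : ℝ) ≤ Real.exp ((e0 - η) * Y)

/-- selection of separated points -/
lemma select {S : Finset ℝ} {h R : ℝ} {P : ℝ → Prop}
    (hS : ∀ x ∈ S, 0 ≤ x ∧ √x ≤ R ∧ ∃ y : ℝ, x ≤ y ∧ y + h ≤ x + √x ∧ P y)
    (hsep : ∀ x ∈ S, ∀ x' ∈ S, x ≠ x' → R ≤ |x - x'|) (hh : 0 < h) :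
    ∃ U : Finset ℝ, U.card = S.card ∧ (∀ y ∈ U, ∃ x ∈ S, x ≤ y ∧ y + h ≤ x + √x ∧ P y) ∧
      ∀ y ∈ U, ∀ y' ∈ U, y ≠ y' → h ≤ |y - y'| := by
  classical
  choose! f hf using fun x hx => (hS x hx).2.2
  have key : ∀ x ∈ S, ∀ x' ∈ S, x < x' → h ≤ f x' - f x := by
    intro x hx x' hx' hlt
    have h1 := (hS x hx).2.1
    have h3 := hsep x hx x' hx' hlt.ne
    rw [abs_sub_comm, abs_of_pos (by linarith)] at h3
    have h4 := (hf x hx).2.1
    have h5 := (hf x' hx').1
    linarith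
  have inj : Set.InjOn f S := by
    intro n hn n' hn' he
    rcases lt_trichotomy n n' with hlt | heq | hgt
    · have := key n hn n' hn' hlt
      linarith
    · exact heq
    · have := key n' hn' n hn hgt
      linarith
  refine ⟨S.image f, card_image_of_injOn inj, ?_, ?_⟩
  · intro y hy
    obtain ⟨n, hn, rfl⟩ := mem_image.1 hy
    exact ⟨n, hn, hf n hn⟩
  · intro y hy y' hy' hne
    obtain ⟨n, hn, rfl⟩ := mem_image.1 hy
    obtain ⟨n', hn', rfl⟩ := mem_image.1 hy'
    rcases lt_trichotomy n n' with hlt | heq | hgt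
    · rw [abs_sub_comm]
      exact (key n hn n' hn' hlt).trans (le_abs_self _)
    · exact absurd (by rw [heq]) hne
    · exact (key n' hn' n hn hgt).trans (le_abs_self _)

/-- one window -/
lemma window {c0 η0 η Y R : ℝ} (hc0 : 0 < c0) (hη : 0 < η) (hηη : η ≤ η0) (hη1 : η ≤ 1 / 100)
    (hY : 4 / η ≤ Y)
    (hM : ∀ h : ℝ, Real.exp ((1 - 1 / 2 - η0) * Y) ≤ h → h ≤ Real.exp (0.9 * Y) → ∀ U : Finset ℝ,
      (∀ y ∈ U, 0 < y ∧ |Real.log y - Y| ≤ 2 / 5 ∧ (pc y h : ℝ) < c0 * h / Y) →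
      (∀ y ∈ U, ∀ y' ∈ U, y ≠ y' → h ≤ |y - y'|) → (U.card : ℝ) ≤ Real.exp ((0.306 - η0) * Y))
    (S : Finset ℝ)
    (hS : ∀ x ∈ S, 0 < x ∧ √x ≤ R ∧ Y ≤ Real.log x ∧ Real.log x < Y + 1 / 5 ∧
      ¬ Rich (c0 / 4) (η / 2) x) (hsep : ∀ x ∈ S, ∀ x' ∈ S, x ≠ x' → R ≤ |x - x'|) :
    (S.card : ℝ) ≤ Real.exp ((0.306 - η) * Y) := by
  have hY400 : 400 ≤ Y := by
    refine le_trans ?_ hY
    rw [le_div_iff₀ hη]
    linarith
  have hY0 : 0 < Y := by linarith
  set h : ℝ := Real.exp ((1 / 2 - η) * Y) with hh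
  have hh0 : 0 < h := Real.exp_pos _
  obtain ⟨U, hU1, hU2, hU3⟩ := select (S := S) (h := h) (R := R)
    (P := fun y => (pc y h : ℝ) < c0 * h / Y)
    (by
      intro x hx
      obtain ⟨hx0, h2, h3, h4, h5⟩ := hS x hx
      refine ⟨hx0.le, h2, ?_⟩
      have hlog : 0 < Real.log x := by linarith
      have h4h : 4 * h ≤ x ^ (1 / 2 - η / 2) := by
        rw [hh, Real.rpow_def_of_pos hx0]
        have e4 : (4 : ℝ) ≤ Real.exp 2 := by
          have := Real.add_one_le_exp (1 : ℝ)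
          have e2 : Real.exp 2 = Real.exp 1 * Real.exp 1 := by rw [← Real.exp_add]; norm_num
          nlinarith
        calc 4 * Real.exp ((1 / 2 - η) * Y) ≤ Real.exp 2 * Real.exp ((1 / 2 - η) * Y) := by gcongr
          _ = Real.exp (2 + (1 / 2 - η) * Y) := (Real.exp_add _ _).symm
          _ ≤ _ := by
            apply Real.exp_le_exp.2
            have h6 : 4 ≤ η * Y := by
              rw [div_le_iff₀ hη] at hY
              linarith
            nlinarith
      unfold Rich at h5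
      push Not at h5
      obtain ⟨a, b, hxa, hb, hab, hpoor⟩ := h5
      have ha0 : 0 ≤ a := hx0.le.trans hxa
      have hab' : 4 * h ≤ b - a := h4h.trans hab
      obtain ⟨y, hy1, hy2, hy3⟩ := poor (a := a) (b := b) (h := h) (t := c0 * h / Y) ha0 hh0 hab'
        (by positivity)
        (by
          refine lt_of_lt_of_le hpoor ?_
          have hba : 0 ≤ b - a := by linarith
          rw [show c0 * h / Y * (b - a) / (2 * h) = c0 * (b - a) / (2 * Y) by field_simp]
          rw [show c0 / 4 * (b - a) / Real.log x = c0 * (b - a) / (4 * Real.log x) by field_simp]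
          apply div_le_div_of_nonneg_left (by positivity) (by positivity)
          linarith)
      exact ⟨y, hxa.trans hy1, hy2.trans hb, hy3⟩) hsep hh0
  have h1 := hM h (by rw [hh]; apply Real.exp_le_exp.2; nlinarith)
    (by rw [hh]; apply Real.exp_le_exp.2; nlinarith) U (by
      intro y hy
      obtain ⟨x, hx, hy1, hy2, hy3⟩ := hU2 y hy
      obtain ⟨hx0, -, h3, h4, -⟩ := hS x hx
      have hy0 : 0 < y := hx0.trans_le hy1
      refine ⟨hy0, ?_, hy3⟩
      have l1 : Real.log x ≤ Real.log y := Real.log_le_log hx0 hy1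
      have l2 : Real.log y ≤ Real.log x + 1 / 10 := by
        have e1 : y ≤ x * (1 + 1 / √x) := by
          have e2 : x * (1 / √x) = √x := by
            rw [mul_one_div, div_eq_iff (Real.sqrt_pos.2 hx0).ne', Real.mul_self_sqrt hx0.le]
          nlinarith
        have hs : 10 ≤ √x := by
          apply Real.le_sqrt_of_sq_le
          have e3 : Real.exp 10 ≤ x := by
            rw [← Real.exp_log hx0]
            apply Real.exp_le_exp.2
            linarith
          have e4 : (10 : ℝ) ^ 2 ≤ Real.exp 10 := by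
            have e5 := Real.add_one_le_exp (5 : ℝ)
            have e6 : Real.exp 10 = Real.exp 5 * Real.exp 5 := by rw [← Real.exp_add]; norm_num
            have e7 := Real.quadratic_le_exp_of_nonneg (show (0 : ℝ) ≤ 5 by norm_num)
            nlinarith
          linarith
        have h5 := Real.log_le_log hy0 e1
        have h5' : 0 < 1 + 1 / √x := by positivity
        rw [Real.log_mul hx0.ne' h5'.ne'] at h5
        have h6 := Real.log_le_sub_one_of_pos h5'
        have h7 : (1 : ℝ) / √x ≤ 1 / 10 := one_div_le_one_div_of_le (by norm_num) hs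
        linarith
      rw [abs_le]
      constructor <;> linarith) hU3
  rw [hU1] at h1
  refine h1.trans (Real.exp_le_exp.2 ?_)
  nlinarith

open Classical in
/-- **The count of the exceptions** -/
theorem count (hMP : MP (1 / 2) 0.306) : ∃ c δ : ℝ, 0 < c ∧ 0 < δ ∧ δ ≤ 1 / 100 ∧ ∃ C : ℝ, 0 < C ∧
    ∀ X : ℝ, 1 ≤ X → ∀ S : Finset ℝ, (∀ x ∈ S, 1 ≤ x ∧ x ≤ X ∧ ¬ Rich c δ x) →
      (∀ x ∈ S, ∀ x' ∈ S, x ≠ x' → √X ≤ |x - x'|) → (S.card : ℝ) ≤ C * X ^ (0.306 - δ) := by
  obtain ⟨c0, η0, Y0, hc0, hη0, hM⟩ := hMP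
  set η := min η0 (1 / 100) with hη
  have hηpos : 0 < η := by rw [hη]; positivity
  have hηη : η ≤ η0 := min_le_left _ _
  have hη1 : η ≤ 1 / 100 := min_le_right _ _
  obtain ⟨n0, hn0⟩ : ∃ n0 : ℕ, Real.exp (max Y0 (4 / η) + 1) ≤ n0 := exists_nat_ge _
  refine ⟨c0 / 4, η / 2, by positivity, by positivity, by linarith, n0 + 10 / η + 1, by positivity,
    fun X hX S hS hsep => ?_⟩
  have hXpos : 0 < X := by linarith
  have hlogX : 0 ≤ Real.log X := Real.log_nonneg hX
  have hsX : 1 ≤ √X := Real.one_le_sqrt.2 hX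
  set J := ⌊5 * Real.log X⌋₊ with hJ
  set Sj : ℕ → Finset ℝ := fun j => S.filter (fun x => (n0 : ℝ) ≤ x ∧
    (j : ℝ) / 5 ≤ Real.log x ∧ Real.log x < (j : ℝ) / 5 + 1 / 5) with hSj
  set S0 : Finset ℝ := S.filter (fun x => x < n0) with hS0
  have hS0c : S0.card ≤ n0 := by
    have hinj : Set.InjOn (fun x : ℝ => ⌊x⌋₊) (S0 : Set ℝ) := by
      intro x hx x' hx' he
      rw [mem_coe, hS0, mem_filter] at hx hx'
      by_contra hne
      have h1 := hsep x hx.1 x' hx'.1 hne
      have h2 : ⌊x⌋₊ = ⌊x'⌋₊ := he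
      have hx1 := (hS x hx.1).1
      have hx1' := (hS x' hx'.1).1
      have h3 := Nat.floor_le (show (0 : ℝ) ≤ x by linarith)
      have h4 := Nat.lt_floor_add_one x
      have h5 := Nat.floor_le (show (0 : ℝ) ≤ x' by linarith)
      have h6 := Nat.lt_floor_add_one x'
      rw [h2] at h3 h4
      have h7 : |x - x'| < 1 := by rw [abs_lt]; constructor <;> linarith
      linarith
    calc S0.card = (S0.image (fun x : ℝ => ⌊x⌋₊)).card := (card_image_of_injOn hinj).symm
      _ ≤ (range n0).card := by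
        apply card_le_card
        intro k hk
        obtain ⟨x, hx, rfl⟩ := mem_image.1 hk
        rw [hS0, mem_filter] at hx
        rw [mem_range]
        exact (Nat.floor_lt (by linarith [(hS x hx.1).1])).2 hx.2
      _ = n0 := card_range _
  have hsub : S ⊆ S0 ∪ (range (J + 1)).biUnion Sj := by
    intro x hx
    obtain ⟨hx1, hx2, hx3⟩ := hS x hx
    by_cases hnn : x < n0
    · exact mem_union_left _ (by rw [hS0, mem_filter]; exact ⟨hx, hnn⟩)
    push Not at hnn
    apply mem_union_right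
    rw [mem_biUnion]
    have hl0 : 0 ≤ Real.log x := Real.log_nonneg hx1
    refine ⟨⌊5 * Real.log x⌋₊, ?_, ?_⟩
    · rw [mem_range, Nat.lt_succ_iff]
      apply Nat.floor_le_floor
      have := Real.log_le_log (by linarith) hx2
      linarith
    · have h1 : ((⌊5 * Real.log x⌋₊ : ℕ) : ℝ) ≤ 5 * Real.log x := Nat.floor_le (by positivity)
      have h2 := Nat.lt_floor_add_one (5 * Real.log x)
      rw [hSj, mem_filter]
      exact ⟨hx, hnn, by linarith, by linarith⟩
  have hwin : ∀ j ∈ range (J + 1), ((Sj j).card : ℝ) ≤ X ^ (0.306 - η) := by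
    intro j hj
    rw [mem_range, Nat.lt_succ_iff] at hj
    rcases (Sj j).eq_empty_or_nonempty with hemp | ⟨x, hx⟩
    · rw [hemp, card_empty, Nat.cast_zero]
      positivity
    rw [hSj, mem_filter] at hx
    obtain ⟨hxS, hnn, hl1, hl2⟩ := hx
    have hb : max Y0 (4 / η) + 1 ≤ Real.log x := by
      have h1 : Real.exp (max Y0 (4 / η) + 1) ≤ x := hn0.trans hnn
      have h2 := Real.log_le_log (Real.exp_pos _) h1
      rwa [Real.log_exp] at h2
    have hYY : max Y0 (4 / η) ≤ (j : ℝ) / 5 := by linarith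
    have hY0 : Y0 ≤ (j : ℝ) / 5 := (le_max_left _ _).trans hYY
    have hY1 : 4 / η ≤ (j : ℝ) / 5 := (le_max_right _ _).trans hYY
    have h1 := window (Y := (j : ℝ) / 5) (R := √X) hc0 hηpos hηη hη1 hY1 (hM _ hY0) (Sj j) (by
      intro z hz
      rw [hSj, mem_filter] at hz
      obtain ⟨h1, h2, h3, h4⟩ := hz
      obtain ⟨h5, h6, h7⟩ := hS z h1
      exact ⟨by linarith, Real.sqrt_le_sqrt h6, h3, h4, h7⟩)
      (fun z hz z' hz' hne => hsep z (mem_of_mem_filter z hz) z' (mem_of_mem_filter z' hz') hne)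
    refine h1.trans ?_
    rw [Real.rpow_def_of_pos hXpos]
    apply Real.exp_le_exp.2
    have hj' : (j : ℝ) ≤ 5 * Real.log X := (Nat.cast_le.2 hj).trans (Nat.floor_le (by positivity))
    nlinarith
  have hc1 : (S.card : ℝ) ≤ n0 + ∑ j ∈ range (J + 1), ((Sj j).card : ℝ) := by
    have h1 := card_le_card hsub
    have h2 := (h1.trans (card_union_le _ _)).trans (Nat.add_le_add hS0c card_biUnion_le)
    exact_mod_cast h2
  refine hc1.trans ?_
  have hc2 : ∑ j ∈ range (J + 1), ((Sj j).card : ℝ) ≤ ((J : ℝ) + 1) * X ^ (0.306 - η) := by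
    calc _ ≤ ∑ j ∈ range (J + 1), X ^ (0.306 - η) := sum_le_sum hwin
      _ = _ := by rw [sum_const, card_range, nsmul_eq_mul]; push_cast; ring
  have hJ1 : (J : ℝ) ≤ 10 / η * X ^ (η / 2) := by
    refine (Nat.floor_le (by positivity)).trans ?_
    have := Real.log_le_rpow_div hXpos.le (show 0 < η / 2 by positivity)
    calc 5 * Real.log X ≤ 5 * (X ^ (η / 2) / (η / 2)) := by linarith
      _ = _ := by field_simp; ring
  have e1 : X ^ (0.306 - η / 2) = X ^ (η / 2) * X ^ (0.306 - η) := by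
    rw [← Real.rpow_add hXpos]
    congr 1
    ring
  have hP : X ^ (0.306 - η) ≤ X ^ (0.306 - η / 2) :=
    Real.rpow_le_rpow_of_exponent_le hX (by linarith)
  have hQ : (1 : ℝ) ≤ X ^ (0.306 - η / 2) := Real.one_le_rpow hX (by linarith)
  have hP0 : 0 ≤ X ^ (0.306 - η) := by positivity
  have hn0' : (0 : ℝ) ≤ n0 := Nat.cast_nonneg _
  calc (n0 : ℝ) + ∑ j ∈ range (J + 1), ((Sj j).card : ℝ)
      ≤ n0 + (10 / η * X ^ (η / 2) + 1) * X ^ (0.306 - η) := by
        have : ((J : ℝ) + 1) * X ^ (0.306 - η) ≤ (10 / η * X ^ (η / 2) + 1) * X ^ (0.306 - η) := by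
          gcongr
        linarith
    _ = n0 + 10 / η * X ^ (0.306 - η / 2) + X ^ (0.306 - η) := by rw [e1]; ring
    _ ≤ _ := by nlinarith

end Pool.Agent.Zk24.PR
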