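import Pool.Agent.Zk24.PR.A
import Pool.Agent.Q278.KT.Fin
import Pool.Agent.X58.IV.Prm

set_option autoImplicit false

/-!
# Rich intervals `(x, x + √x)`: covering, measure, narrow progressions
-/

namespace Pool.Agent.Zk24.PR

open Finset MeasureTheory

theorem mp_half : MP (1 / 2) 0.306 := Pool.Agent.Q278.KT.mainp_half

/-- a maximal separated set gives a covering -/
lemma cover {E : Set ℝ} {R K : ℝ} (hR : 0 < R) (hE : ∀ S : Finset ℝ, (∀ x ∈ S, x ∈ E) →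
    (∀ x ∈ S, ∀ x' ∈ S, x ≠ x' → R ≤ |x - x'|) → (S.card : ℝ) ≤ K) :
    ∃ T : Finset ℝ, (T.card : ℝ) ≤ K ∧ E ⊆ ⋃ t ∈ T, Set.Icc (t - R) (t + R) := by
  classical
  set P : ℕ → Prop := fun n => ∃ S : Finset ℝ, S.card = n ∧ (∀ x ∈ S, x ∈ E) ∧
    (∀ x ∈ S, ∀ x' ∈ S, x ≠ x' → R ≤ |x - x'|) with hP
  have hP0 : P 0 := ⟨∅, by simp, by simp, by simp⟩
  have hbd : ∀ n, P n → n ≤ ⌊K⌋₊ := by
    rintro n ⟨S, rfl, h1, h2⟩
    exact Nat.le_floor (hE S h1 h2)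
  obtain ⟨T, hTc, hTE, hTs⟩ : P (Nat.findGreatest P ⌊K⌋₊) :=
    Nat.findGreatest_spec (Nat.zero_le _) hP0
  refine ⟨T, hE T hTE hTs, fun x hx => ?_⟩
  by_contra hcon
  simp only [Set.mem_iUnion, Set.mem_Icc, exists_prop, not_exists, not_and] at hcon
  have hfar : ∀ t ∈ T, R < |x - t| := by
    intro t ht
    by_contra h
    push Not at h
    rw [abs_le] at h
    exact hcon t ht (by linarith) (by linarith)
  have hxT : x ∉ T := by
    intro h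
    have := hfar x h
    simp at this
    linarith
  have hP1 : P (T.card + 1) := by
    refine ⟨insert x T, card_insert_of_notMem hxT, ?_, ?_⟩
    · intro y hy
      rcases mem_insert.1 hy with rfl | hy
      · exact hx
      · exact hTE y hy
    · intro y hy y' hy' hne
      rcases mem_insert.1 hy with h1 | h1
      · rcases mem_insert.1 hy' with h2 | h2
        · exact absurd (h1.trans h2.symm) hne
        · rw [h1]
          exact (hfar _ h2).le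
      · rcases mem_insert.1 hy' with h2 | h2
        · rw [abs_sub_comm, h2]
          exact (hfar _ h1).le
        · exact hTs y h1 y' h2 hne
  have h1 := Nat.le_findGreatest (hbd _ hP1) hP1
  omega

/-- the measure of a covered set -/
lemma measure_cover {E : Set ℝ} {R : ℝ} {T : Finset ℝ}
    (h : E ⊆ ⋃ t ∈ T, Set.Icc (t - R) (t + R)) :
    volume E ≤ ENNReal.ofReal (T.card * (2 * R)) := by
  calc volume E ≤ volume (⋃ t ∈ T, Set.Icc (t - R) (t + R)) := measure_mono h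
    _ ≤ ∑ t ∈ T, volume (Set.Icc (t - R) (t + R)) := measure_biUnion_finset_le _ _
    _ = ∑ t ∈ T, ENNReal.ofReal (2 * R) := by
        apply sum_congr rfl
        intro t _
        rw [Real.volume_Icc]
        congr 1
        ring
    _ = _ := by
        rw [sum_const, nsmul_eq_mul, ENNReal.ofReal_mul (Nat.cast_nonneg T.card), ENNReal.ofReal_natCast]

/-- the number of integers of a covered set -/
lemma card_cover {E : Set ℝ} {R : ℝ} (hR : 1 ≤ R) {T : Finset ℝ}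
    (h : E ⊆ ⋃ t ∈ T, Set.Icc (t - R) (t + R)) :
    ({n : ℕ | (n : ℝ) ∈ E}.ncard : ℝ) ≤ T.card * (3 * R) := by
  classical
  have hsub : {n : ℕ | (n : ℝ) ∈ E} ⊆ ((T.biUnion (fun t => Icc ⌈t - R⌉₊ ⌊t + R⌋₊) : Finset ℕ) : Set ℕ) := by
    intro n hn
    have h1 := h hn
    simp only [Set.mem_iUnion, Set.mem_Icc, exists_prop] at h1
    obtain ⟨t, ht, h2, h3⟩ := h1
    rw [mem_coe, mem_biUnion]
    refine ⟨t, ht, ?_⟩
    rw [mem_Icc]
    exact ⟨Nat.ceil_le.2 h2, Nat.le_floor h3⟩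
  have h1 := Set.ncard_le_ncard hsub (Finset.finite_toSet _)
  rw [Set.ncard_coe_finset] at h1
  have h2 : ∀ t ∈ T, ((Icc ⌈t - R⌉₊ ⌊t + R⌋₊).card : ℝ) ≤ 3 * R := by
    intro t _
    rw [Nat.card_Icc]
    rcases le_or_gt (⌊t + R⌋₊ + 1) ⌈t - R⌉₊ with hle | hlt
    · rw [Nat.sub_eq_zero_of_le hle]
      simp
      linarith
    · rw [Nat.cast_sub hlt.le]
      have h3 : t - R ≤ ⌈t - R⌉₊ := Nat.le_ceil _
      push_cast
      rcases le_or_gt 0 (t + R) with h4 | h4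
      · have := Nat.floor_le h4
        linarith
      · rw [Nat.floor_of_nonpos h4.le]
        simp
        have : (0 : ℝ) ≤ ⌈t - R⌉₊ := Nat.cast_nonneg _
        linarith
  calc ({n : ℕ | (n : ℝ) ∈ E}.ncard : ℝ) ≤ ((T.biUnion (fun t => Icc ⌈t - R⌉₊ ⌊t + R⌋₊)).card : ℝ) := by
        exact_mod_cast h1
    _ ≤ ∑ t ∈ T, ((Icc ⌈t - R⌉₊ ⌊t + R⌋₊).card : ℝ) := by exact_mod_cast card_biUnion_le
    _ ≤ ∑ t ∈ T, 3 * R := sum_le_sum h2
    _ = _ := by rw [sum_const, nsmul_eq_mul]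

/-- for a rich `x`, dense sets of primes in short intervals contain narrow progressions -/
theorem ap_of_rich {c δ : ℝ} (hc : 0 < c) (hδ : 0 < δ) (hδ1 : δ ≤ 1 / 100) (k : ℕ) (ε : ℝ)
    (hε : 0 < ε) : ∃ (B : ℕ) (x₁ : ℝ), ∀ x : ℝ, x₁ ≤ x → Rich c δ x → ∀ a b : ℝ, x ≤ a →
      b ≤ x + √x → x ^ (1 / 2 - δ) ≤ b - a → ∀ U : Finset ℕ,
      (∀ p ∈ U, p.Prime ∧ a < p ∧ (p : ℝ) < b) → ε * (np a b : ℝ) ≤ U.card →
      ∃ q d : ℕ, 1 ≤ d ∧ (d : ℝ) ≤ Real.log x ^ B ∧ ∀ j < k, q + j * d ∈ U := by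
  obtain ⟨B, X₀, hB⟩ := Pool.Agent.X58.IV.primes_ap k (ε * c / 8) (by positivity)
  refine ⟨B, max (((X₀ : ℝ) + 2) ^ 4) (Real.exp 8), fun x hx hR a b hxa hb hab U hU hc' => ?_⟩
  have hx1 : ((X₀ : ℝ) + 2) ^ 4 ≤ x := (le_max_left _ _).trans hx
  have hx2 : Real.exp 8 ≤ x := (le_max_right _ _).trans hx
  have hx0 : 0 < x := (Real.exp_pos _).trans_le hx2
  have hlog : 8 ≤ Real.log x := by
    have := Real.log_le_log (Real.exp_pos _) hx2
    rwa [Real.log_exp] at this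
  have h16 : (16 : ℝ) ≤ x := by
    have h0 : (0 : ℝ) ≤ X₀ := Nat.cast_nonneg _
    have : (2 : ℝ) ^ 4 ≤ ((X₀ : ℝ) + 2) ^ 4 := by gcongr; linarith
    linarith
  -- the length
  have hx4 : (X₀ : ℝ) + 2 ≤ x ^ (1 / 4 : ℝ) := by
    have h0 : (0 : ℝ) ≤ (X₀ : ℝ) + 2 := by positivity
    calc (X₀ : ℝ) + 2 = (((X₀ : ℝ) + 2) ^ (4 : ℕ)) ^ (1 / 4 : ℝ) := by
          rw [← Real.rpow_natCast, ← Real.rpow_mul h0]
          norm_num
      _ ≤ _ := Real.rpow_le_rpow (by positivity) hx1 (by norm_num)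
  have hab4 : x ^ (1 / 4 : ℝ) ≤ b - a :=
    (Real.rpow_le_rpow_of_exponent_le (by linarith) (by linarith)).trans hab
  have hab2 : (X₀ : ℝ) + 2 ≤ b - a := hx4.trans hab4
  have hX0n : (0 : ℝ) ≤ X₀ := Nat.cast_nonneg _
  have ha0 : 0 < a := hx0.trans_le hxa
  have hb0 : 0 < b := by linarith
  have hf1 : (⌊a⌋₊ : ℝ) ≤ a := Nat.floor_le ha0.le
  have hf2 : a < ⌊a⌋₊ + 1 := Nat.lt_floor_add_one a
  have hg1 : b ≤ ⌈b⌉₊ := Nat.le_ceil b
  have hg2 : (⌈b⌉₊ : ℝ) < b + 1 := Nat.ceil_lt_add_one hb0.le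
  have hle : ⌊a⌋₊ ≤ ⌈b⌉₊ := by
    have : (⌊a⌋₊ : ℝ) ≤ ⌈b⌉₊ := by linarith
    exact_mod_cast this
  set A := ⌊a⌋₊ with hA
  set X := ⌈b⌉₊ - ⌊a⌋₊ with hX
  have hXr : (X : ℝ) = ⌈b⌉₊ - A := by rw [hX, Nat.cast_sub hle]
  have hAX : A + X = ⌈b⌉₊ := by omega
  have hX1 : b - a ≤ X := by rw [hXr]; linarith
  have hX2 : (X : ℝ) ≤ 2 * (b - a) := by rw [hXr]; linarith
  have hXpos : (0 : ℝ) < X := by linarith
  have hX0 : X₀ ≤ X := by
    have : (X₀ : ℝ) ≤ X := by linarith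
    exact_mod_cast this
  have hsx : √x ≤ x / 4 := by
    rw [Real.sqrt_le_left (by positivity)]
    nlinarith
  have hs4 : 4 ≤ √x := Real.le_sqrt_of_sq_le (by linarith)
  have hXx : (X : ℝ) ≤ 2 * √x := by linarith
  have hXA : X ≤ A := by
    have : (X : ℝ) ≤ A := by linarith
    exact_mod_cast this
  have l1 : 49 / 100 * Real.log x ≤ Real.log X := by
    have h1 : x ^ (1 / 2 - δ) ≤ X := hab.trans hX1
    have h2 := Real.log_le_log (by positivity) h1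
    rw [Real.log_rpow hx0] at h2
    nlinarith
  have l2 : Real.log X ≤ Real.log x := by
    apply Real.log_le_log hXpos
    linarith
  have hsub : U ⊆ (Ioc A (A + X)).filter Nat.Prime := by
    intro p hp
    obtain ⟨h1, h2, h3⟩ := hU p hp
    rw [mem_filter, mem_Ioc, hAX]
    refine ⟨⟨(Nat.floor_lt ha0.le).2 h2, ?_⟩, h1⟩
    have : (p : ℝ) ≤ ⌈b⌉₊ := by linarith
    exact_mod_cast this
  have h1 : (ε * c / 8) * X / Real.log X ≤ U.card := by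
    refine le_trans ?_ hc'
    have h2 := hR a b hxa hb hab
    have hba : 0 ≤ b - a := by linarith
    calc (ε * c / 8) * X / Real.log X ≤ (ε * c / 8) * (2 * (b - a)) / (1 / 4 * Real.log x) := by
          apply div_le_div₀ (by positivity) (by gcongr) (by linarith) (by linarith)
      _ = ε * (c * (b - a) / Real.log x) := by field_simp; ring
      _ ≤ _ := by gcongr
  obtain ⟨q, d, h2, h3, h4⟩ := hB X A hX0 hXA U hsub h1
  refine ⟨q, d, h2, h3.trans ?_, h4⟩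
  apply pow_le_pow_left₀ (by linarith) l2

/-- **The main theorem** -/
theorem main : ∃ c δ C : ℝ, 0 < c ∧ 0 < δ ∧ 0 < C ∧ ∃ E : Set ℝ,
    (∀ X : ℝ, 1 ≤ X → ∃ T : Finset ℝ, (T.card : ℝ) ≤ C * X ^ (0.306 - δ) ∧
      E ∩ Set.Icc 1 X ⊆ ⋃ t ∈ T, Set.Icc (t - √X) (t + √X)) ∧
    (∀ X : ℝ, 1 ≤ X → volume (E ∩ Set.Icc 1 X) ≤ ENNReal.ofReal (C * X ^ (0.806 - δ)) ∧
      ({n : ℕ | (n : ℝ) ∈ E ∩ Set.Icc 1 X}.ncard : ℝ) ≤ C * X ^ (0.806 - δ)) ∧
    (∀ x : ℝ, 1 ≤ x → x ∉ E → ∀ a b : ℝ, x ≤ a → b ≤ x + √x → x ^ (1 / 2 - δ) ≤ b - a →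
      c * (b - a) / Real.log x ≤ ({p : ℕ | p.Prime ∧ a < p ∧ (p : ℝ) < b}.ncard : ℝ)) ∧
    ∀ (k : ℕ) (ε : ℝ), 0 < ε → ∃ (B : ℕ) (x₁ : ℝ), ∀ x : ℝ, x₁ ≤ x → x ∉ E →
      ∀ a b : ℝ, x ≤ a → b ≤ x + √x → x ^ (1 / 2 - δ) ≤ b - a → ∀ U : Finset ℕ,
        (∀ p ∈ U, p.Prime ∧ a < p ∧ (p : ℝ) < b) →
        ε * ({p : ℕ | p.Prime ∧ a < p ∧ (p : ℝ) < b}.ncard : ℝ) ≤ U.card →
        ∃ q d : ℕ, 1 ≤ d ∧ (d : ℝ) ≤ Real.log x ^ B ∧ ∀ j < k, q + j * d ∈ U := by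
  obtain ⟨c, δ, hc, hδ, hδ1, C, hC0, hC⟩ := count mp_half
  have hcov : ∀ X : ℝ, 1 ≤ X → ∃ T : Finset ℝ, (T.card : ℝ) ≤ C * X ^ (0.306 - δ) ∧
      {x : ℝ | 1 ≤ x ∧ ¬ Rich c δ x} ∩ Set.Icc 1 X ⊆ ⋃ t ∈ T, Set.Icc (t - √X) (t + √X) := by
    intro X hX
    refine cover (Real.sqrt_pos.2 (by linarith)) ?_
    intro S h1 h2
    exact hC X hX S (fun x hx => ⟨(h1 x hx).1.1, (h1 x hx).2.2, (h1 x hx).1.2⟩) h2
  refine ⟨c, δ, 3 * C, hc, hδ, by positivity, {x : ℝ | 1 ≤ x ∧ ¬ Rich c δ x}, ?_, ?_, ?_, ?_⟩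
  · intro X hX
    obtain ⟨T, h1, h2⟩ := hcov X hX
    refine ⟨T, h1.trans ?_, h2⟩
    have : 0 < X ^ (0.306 - δ) := by positivity
    nlinarith
  · intro X hX
    obtain ⟨T, h1, h2⟩ := hcov X hX
    have hXpos : 0 < X := by linarith
    have hs : 1 ≤ √X := Real.one_le_sqrt.2 hX
    have e1 : X ^ (0.806 - δ) = √X * X ^ (0.306 - δ) := by
      rw [Real.sqrt_eq_rpow, ← Real.rpow_add hXpos]
      congr 1
      ring
    have hP : 0 < X ^ (0.306 - δ) := by positivity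
    constructor
    · refine (measure_cover h2).trans (ENNReal.ofReal_le_ofReal ?_)
      rw [e1]
      calc (T.card : ℝ) * (2 * √X) ≤ (C * X ^ (0.306 - δ)) * (2 * √X) := by gcongr
        _ ≤ _ := by
          have : 0 < C * (X ^ (0.306 - δ) * √X) := by positivity
          nlinarith
    · refine (card_cover hs h2).trans ?_
      rw [e1]
      calc (T.card : ℝ) * (3 * √X) ≤ (C * X ^ (0.306 - δ)) * (3 * √X) := by gcongr
        _ = _ := by ring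
  · intro x hx hE
    have hR : Rich c δ x := by
      by_contra hcon
      exact hE ⟨hx, hcon⟩
    exact hR
  · intro k ε hε
    obtain ⟨B, x₁, hB⟩ := ap_of_rich hc hδ hδ1 k ε hε
    refine ⟨B, max x₁ 1, fun x hx hE => ?_⟩
    have hR : Rich c δ x := by
      by_contra hcon
      exact hE ⟨(le_max_right _ _).trans hx, hcon⟩
    exact hB x ((le_max_left _ _).trans hx) hR

end Pool.Agent.Zk24.PR
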